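import Pool.Agent.Work.MP_766cb7_co.Operator

/-!
# MP_766cb7_co: IE-operators with (C) and (H) need not be closure operators of B-matroids

On every infinite set there is an IE-operator satisfying (C) and (H) which is not the closure
operator of any B-matroid.
-/

namespace Pool.Agent.Results.MP_766cb7_co.NotBMatroidClosure

open Set

universe u

/-- An IE-operator on `S`: extensive, monotone, idempotent (cl3), and with the exchange
property (cl4') for sets. -/
structure IsIEOperator {S : Type u} (f : Set S → Set S) : Prop where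
  extensive : ∀ A : Set S, A ⊆ f A
  monotone : ∀ A B : Set S, A ⊆ B → f A ⊆ f B
  cl3 : ∀ A : Set S, f (f A) = f A
  cl4' : ∀ A B : Set S, ∀ q ∈ f B \ f (B \ A), ∃ a ∈ A, a ∈ f (insert q (B \ {a}))

/-- `A` is independent for `f`: `a ∉ f (A - a)` for all `a ∈ A`. -/
def Independent {S : Type u} (f : Set S → Set S) (A : Set S) : Prop :=
  ∀ a ∈ A, a ∉ f (A \ {a})

/-- `A` is spanning for `f`. -/
def Spanning {S : Type u} (f : Set S → Set S) (A : Set S) : Prop := f A = univ

/-- Condition (C): whenever `q ∈ f B`, there is an inclusion-minimal `U ⊆ B` with `q ∈ f U`, and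
this `U` is independent. -/
def CondC {S : Type u} (f : Set S → Set S) : Prop :=
  ∀ (B : Set S) (q : S), q ∈ f B →
    ∃ U : Set S, Minimal (fun W : Set S => W ⊆ B ∧ q ∈ f W) U ∧ Independent f U

/-- Condition (H): whenever `q ∉ f B`, there is an inclusion-maximal `V ⊇ B` with `q ∉ f V`, and
`V + q` is spanning. -/
def CondH {S : Type u} (f : Set S → Set S) : Prop :=
  ∀ (B : Set S) (q : S), q ∉ f B →
    ∃ V : Set S, Maximal (fun W : Set S => B ⊆ W ∧ q ∉ f W) V ∧ Spanning f (insert q V)

/-- `B` is an `I`-basis of `A`: a maximal member of `I` contained in `A`. -/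
def IsBasisOf {S : Type u} (I : Set (Set S)) (B A : Set S) : Prop :=
  Maximal (fun J : Set S => J ∈ I ∧ J ⊆ A) B

/-- A B-matroid on `S`, given by its family of independent sets. -/
structure IsBMatroid {S : Type u} (I : Set (Set S)) : Prop where
  empty_mem : ∅ ∈ I
  subset_closed : ∀ J ∈ I, ∀ K ⊆ J, K ∈ I
  IB1 : ∀ J ∈ I, ∀ A : Set S, J ⊆ A → ∃ B : Set S, IsBasisOf I B A ∧ J ⊆ B
  IB2 : ∀ A B₁ B₂ : Set S, IsBasisOf I B₁ A → IsBasisOf I B₂ A → ∀ a ∈ B₁ \ B₂,
    ∃ b ∈ B₂ \ B₁, IsBasisOf I (insert b (B₁ \ {a})) A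

/-- The closure operator of a family of independent sets: `A` together with all `e` for which some
`J ∈ I` with `J ⊆ A` has `J + e ∉ I`. -/
def closureOp {S : Type u} (I : Set (Set S)) (A : Set S) : Set S :=
  A ∪ {e | ∃ J ∈ I, J ⊆ A ∧ insert e J ∉ I}

/-- On every infinite set there is an IE-operator with (C) and (H) that is the closure operator of
no B-matroid. -/
theorem result : ∀ (S : Type u) [Infinite S], ∃ f : Set S → Set S,
    IsIEOperator f ∧ CondC f ∧ CondH f ∧
      ¬ ∃ I : Set (Set S), IsBMatroid I ∧ closureOp I = f := by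
  intro S hS
  let g : ℕ × Fin 3 ↪ S :=
    (⟨Encodable.encode, Encodable.encode_injective⟩ : ℕ × Fin 3 ↪ ℕ).trans (Infinite.natEmbedding S)
  obtain ⟨f, hext, hmono, hidem, hex, hC, hH, I₀, X, hIX, hI, hgap⟩ :=
    Pool.Agent.Work.MP_766cb7_co.exists_operator g g.injective
  refine ⟨f, ⟨hext, hmono, hidem, fun A B q hq => hex A B q hq.1 hq.2⟩, ?_, ?_, ?_⟩
  · intro B q hq
    exact hC B q hq
  · intro B q hq
    exact hH B q hq
  · rintro ⟨𝓘, hB, hcl⟩
    have hcl' : ∀ A e, e ∈ f A ↔ e ∈ A ∨ ∃ J ∈ 𝓘, J ⊆ A ∧ insert e J ∉ 𝓘 := by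
      intro A e
      rw [← hcl]
      rfl
    -- `I₀` is independent
    have hI₀ : I₀ ∈ 𝓘 := by
      by_contra hcon
      obtain ⟨B, hBasis, -⟩ := hB.IB1 ∅ hB.empty_mem I₀ (empty_subset _)
      have hne : ∃ e ∈ I₀, e ∉ B := by
        by_contra h
        push Not at h
        have : I₀ = B := Subset.antisymm h hBasis.prop.2
        exact hcon (this ▸ hBasis.prop.1)
      obtain ⟨e, he, heB⟩ := hne
      have h1 : insert e B ∉ 𝓘 := by
        intro h
        have := hBasis.le_of_ge ⟨h, insert_subset he hBasis.prop.2⟩ (subset_insert e B)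
        exact heB (this (mem_insert _ _))
      have h2 : e ∈ f (I₀ \ {e}) := by
        rw [hcl']
        right
        refine ⟨B, hBasis.prop.1, ?_, h1⟩
        intro b hb
        refine ⟨hBasis.prop.2 hb, ?_⟩
        rintro rfl
        exact heB hb
      rw [hI _ sdiff_subset] at h2
      exact h2.2 rfl
    obtain ⟨B, hBasis, hIB⟩ := hB.IB1 I₀ hI₀ X hIX
    rcases hgap B hIB hBasis.prop.2 with ⟨x, hx, hx'⟩ | ⟨hfix, x, hxX, hxB⟩
    · rw [hcl'] at hx'
      rcases hx' with h | ⟨J, hJ, hJB, hJx⟩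
      · exact h.2 rfl
      · apply hJx
        refine hB.subset_closed B hBasis.prop.1 _ ?_
        exact insert_subset hx (hJB.trans sdiff_subset)
    · have h1 : insert x B ∉ 𝓘 := by
        intro h
        have := hBasis.le_of_ge ⟨h, insert_subset hxX hBasis.prop.2⟩ (subset_insert x B)
        exact hxB (this (mem_insert _ _))
      have h2 : x ∈ f B := by
        rw [hcl']
        exact Or.inr ⟨B, hBasis.prop.1, Subset.rfl, h1⟩
      rw [hfix] at h2
      exact hxB h2

end Pool.Agent.Results.MP_766cb7_co.NotBMatroidClosure
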